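import Pool.Agent.X190.LQ.Mat
import Pool.Agent.X190.AT.Perm

set_option autoImplicit false
set_option linter.unusedSectionVars false

open scoped InnerProductSpace InnerProduct ENNReal Topology
open Filter

/-! Shifts of matrices, and cones in locally indicable groups. -/

namespace Pool.Agent.X190.LQ

open Pool.Agent.W649.ZL Pool.Agent.X190.TW Pool.Agent.X190.AT

universe u v w z

section
variable {G : Type u} {K : Type v} {L : Type w} [Group G] [Fintype K] [Fintype L]
  [DecidableEq K] [DecidableEq L]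

theorem kerDimM_shift_le (A A' : K → L → (G →₀ ℂ)) (g : K → G) (h : L → G)
    (hA : ∀ i j t, A' i j (g i * t * h j) = A i j t) : kerDimM A' ≤ kerDimM A := by
  classical
  obtain ⟨S, hS, hSk, hSa⟩ := exists_op A
  obtain ⟨R, hR, hRk, hRa⟩ := exists_op A'
  have hsum : ∀ k j (f : G → ℂ), ∑ t ∈ (A' k j).support, A' k j t * f t
      = ∑ t ∈ (A k j).support, A k j t * f (g k * t * h j) := by
    intro k j f
    symm
    refine Finset.sum_nbij (fun t => g k * t * h j) ?_ ?_ ?_ ?_
    · intro t ht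
      rw [Finsupp.mem_support_iff] at ht ⊢
      rw [hA]
      exact ht
    · intro a _ b _ hab
      exact mul_left_cancel (mul_right_cancel hab)
    · intro t ht
      have e1 : g k * ((g k)⁻¹ * t * (h j)⁻¹) * h j = t := by group
      refine ⟨(g k)⁻¹ * t * (h j)⁻¹, ?_, e1⟩
      rw [Finset.mem_coe, Finsupp.mem_support_iff] at ht ⊢
      rw [← hA, e1]
      exact ht
    · intro t _
      rw [hA]
  rw [hSk, hRk, vd_eq_infDist _ (ContinuousLinearMap.isClosed_ker S),
    vd_eq_infDist _ (ContinuousLinearMap.isClosed_ker R)]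
  refine Finset.sum_le_sum fun k _ => ?_
  rw [← infDist_base _ (inv_ker R hR) (g k) k]
  let ι : ↥(Set.univ : Set (G × K)) → G × K := fun z => (g z.1.2 * z.1.1, z.1.2)
  have hι : Function.Injective ι := by
    rintro ⟨⟨x, k1⟩, _⟩ ⟨⟨x', k2⟩, _⟩ hh
    obtain ⟨h1, h2⟩ := Prod.mk.inj hh
    simp only at h1 h2
    subst h2
    have h5 : x = x' := mul_left_cancel h1
    subst h5
    rfl
  have hap : ∀ (F : EE G K) (x : G) (k : K), pull _ ι hι F (x, k) = F (g k * x, k) := by
    intro F x k
    rw [pull_apply, pullFun_mem _ _ _ _ (Set.mem_univ _)]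
  refine one_sub_le' _ _ ⟨0, Submodule.zero_mem _⟩ _ _ (pull _ ι hι) ?_ ?_ ?_
  · intro F F'
    rw [pull_sub]
    exact norm_pull_le _ _ _ _
  · ext ⟨x, k'⟩
    rw [hap]
    by_cases hh : (x, k') = ((1 : G), k)
    · obtain ⟨rfl, rfl⟩ := Prod.mk.inj hh
      rw [mul_one, dl_apply_self, dl_apply_self]
    · rw [dl_apply_ne _ _ hh, dl_apply_ne]
      intro h1
      obtain ⟨h2, h3⟩ := Prod.mk.inj h1
      apply hh
      subst h3
      rw [mul_eq_left] at h2
      rw [h2]
  · intro F hF
    have hF0 : R F = 0 := hF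
    change S (pull _ ι hι F) = 0
    ext ⟨x, j⟩
    have h1 : R F ((h j)⁻¹ * x, j) = 0 := by
      rw [hF0]
      rfl
    rw [hRa] at h1
    rw [hSa]
    refine Eq.trans ?_ h1
    refine Finset.sum_congr rfl fun k _ => ?_
    rw [hsum k j (fun t => F (t * ((h j)⁻¹ * x), k))]
    refine Finset.sum_congr rfl fun t _ => ?_
    rw [hap]
    congr 3
    group

/-- multiplication of the rows and the columns by group elements -/
theorem kerDimM_shift (A A' : K → L → (G →₀ ℂ)) (g : K → G) (h : L → G)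
    (hA : ∀ i j t, A' i j (g i * t * h j) = A i j t) : kerDimM A' = kerDimM A := by
  apply le_antisymm (kerDimM_shift_le A A' g h hA)
  refine kerDimM_shift_le A' A (fun i => (g i)⁻¹) (fun j => (h j)⁻¹) ?_
  intro i j t
  rw [← hA]
  congr 1
  group

/-- **Faces with values in a group.** -/
theorem kerDimM_face_group {Q : Type z} [Group Q] (π : G →* Q) (P : Set Q) (hP : HS P)
    (g : K → G) (h : L → G) (A B : K → L → (G →₀ ℂ))
    (hAP : ∀ i j, ∀ t ∈ (A i j).support, π (g i * t * h j) ≠ 1 → π (g i * t * h j) ∈ P)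
    (hB0 : ∀ i j t, π (g i * t * h j) = 1 → B i j t = A i j t)
    (hB1 : ∀ i j t, π (g i * t * h j) ≠ 1 → B i j t = 0) :
    kerDimM A ≤ kerDimM B := by
  classical
  let sh : (K → L → (G →₀ ℂ)) → K → L → (G →₀ ℂ) := fun X i j =>
    Finsupp.equivMapDomain ((Equiv.mulLeft (g i)).trans (Equiv.mulRight (h j))) (X i j)
  have hsh : ∀ X i j t, sh X i j (g i * t * h j) = X i j t := by
    intro X i j t
    change Finsupp.equivMapDomain _ _ _ = _
    rw [Finsupp.equivMapDomain_apply]
    congr 1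
    simp [mul_assoc]
  have hsh' : ∀ X i j t, sh X i j t = X i j ((g i)⁻¹ * t * (h j)⁻¹) := by
    intro X i j t
    rw [← hsh X i j]
    congr 1
    group
  rw [← kerDimM_shift A (sh A) g h (hsh A), ← kerDimM_shift B (sh B) g h (hsh B)]
  have e1 : ∀ i j (t : G), g i * ((g i)⁻¹ * t * (h j)⁻¹) * h j = t := by
    intro i j t
    group
  refine kerDimM_positive π P hP _ (sh A) (sh B) rfl ?_ ?_ ?_
  · intro i j t ht h1
    have h2 := hAP i j ((g i)⁻¹ * t * (h j)⁻¹) (by
      rw [Finsupp.mem_support_iff] at ht ⊢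
      rw [hsh'] at ht
      exact ht)
    rw [e1] at h2
    exact h2 h1
  · intro i j t ht
    rw [hsh', hsh']
    apply hB0
    rw [e1]
    exact ht
  · intro i j t ht
    rw [hsh']
    apply hB1
    rw [e1]
    exact ht

end

/-! the cone -/

section
variable {Q : Type z} [Group Q]

/-- the condition for one finite set -/
def HSf (S : Finset Q) : Prop :=
  ∃ φ : Subgroup.closure (S : Set Q) →* Multiplicative ℤ,
      (∀ s (hs : s ∈ S), 0 ≤ (φ ⟨s, Subgroup.subset_closure hs⟩).toAdd) ∧
      ∃ s, ∃ hs : s ∈ S, 0 < (φ ⟨s, Subgroup.subset_closure hs⟩).toAdd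

theorem HSf_of (S : Finset Q) (K : Subgroup Q) (hSK : ∀ s ∈ S, s ∈ K) (φ : K →* Multiplicative ℤ)
    (h0 : ∀ s (hs : s ∈ S), 0 ≤ (φ ⟨s, hSK s hs⟩).toAdd)
    (h1 : ∃ s, ∃ hs : s ∈ S, 0 < (φ ⟨s, hSK s hs⟩).toAdd) : HSf S := by
  have hle : Subgroup.closure (S : Set Q) ≤ K := by
    rw [Subgroup.closure_le]
    exact hSK
  refine ⟨φ.comp (Subgroup.inclusion hle), fun s hs => h0 s hs, ?_⟩
  obtain ⟨s, hs, h⟩ := h1
  exact ⟨s, hs, h⟩

theorem fin_cone [DecidableEq Q]
    (hQ : ∀ K : Subgroup Q, K.FG → K ≠ ⊥ → ∃ φ : K →* Multiplicative ℤ, ∃ k, φ k ≠ 1) :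
    ∀ (n : ℕ) (T : Finset Q), T.card = n → ∃ ε : Q → Bool,
      (∀ s ∈ T, s⁻¹ ∈ T → s ≠ 1 → ε s = true ∨ ε s⁻¹ = true) ∧
      ∀ S ⊆ T, S.Nonempty → (1 : Q) ∉ S → (∀ s ∈ S, ε s = true) → HSf S := by
  classical
  intro n
  induction n using Nat.strong_induction_on with
  | _ n ih =>
    intro T hT
    by_cases hbot : Subgroup.closure (T : Set Q) = ⊥
    · refine ⟨fun _ => false, ?_, ?_⟩
      · intro s hs _ h1
        exfalso
        apply h1
        have : s ∈ Subgroup.closure (T : Set Q) := Subgroup.subset_closure hs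
        rw [hbot, Subgroup.mem_bot] at this
        exact this
      · intro S _ hne _ h
        obtain ⟨s, hs⟩ := hne
        exact absurd (h s hs) (by simp)
    · obtain ⟨φ, k0, hk0⟩ := hQ _ ⟨T, rfl⟩ hbot
      have hmem : ∀ s ∈ T, s ∈ Subgroup.closure (T : Set Q) := fun s hs =>
        Subgroup.subset_closure hs
      -- some element of T has nonzero value
      have hex : ∃ s, ∃ hs : s ∈ T, φ ⟨s, hmem s hs⟩ ≠ 1 := by
        by_contra hcon
        push Not at hcon
        apply hk0
        have hker : ∀ (x : Q) (hx : x ∈ Subgroup.closure (T : Set Q)), φ ⟨x, hx⟩ = 1 := by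
          intro x hx
          induction hx using Subgroup.closure_induction with
          | mem x h => exact hcon x h
          | one => exact map_one φ
          | mul x y hx hy h1 h2 =>
            have e1 : (⟨x * y, Subgroup.mul_mem _ hx hy⟩ : Subgroup.closure (T : Set Q))
              = ⟨x, hx⟩ * ⟨y, hy⟩ := rfl
            rw [e1, map_mul, h1, h2, one_mul]
          | inv x hx h1 =>
            have e1 : (⟨x⁻¹, Subgroup.inv_mem _ hx⟩ : Subgroup.closure (T : Set Q))
              = (⟨x, hx⟩)⁻¹ := rfl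
            rw [e1, map_inv, h1, inv_one]
        exact hker k0.1 k0.2
      obtain ⟨s0, hs0, hs0φ⟩ := hex
      let e : Q → ℤ := fun q => if h : q ∈ Subgroup.closure (T : Set Q) then (φ ⟨q, h⟩).toAdd else 0
      have he : ∀ q (h : q ∈ Subgroup.closure (T : Set Q)), e q = (φ ⟨q, h⟩).toAdd := by
        intro q h
        simp only [e]
        rw [dif_pos h]
      set T' := T.filter (fun s => e s = 0) with hT'
      have hlt : T'.card < n := by
        rw [← hT]
        apply Finset.card_lt_card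
        rw [Finset.ssubset_iff_of_subset (Finset.filter_subset _ _)]
        refine ⟨s0, hs0, ?_⟩
        rw [Finset.mem_filter]
        rintro ⟨_, h2⟩
        rw [he s0 (hmem s0 hs0)] at h2
        apply hs0φ
        exact Multiplicative.toAdd.injective h2
      obtain ⟨ε', h1, h2⟩ := ih _ hlt T' rfl
      refine ⟨fun s => if e s = 0 then ε' s else decide (0 < e s), ?_, ?_⟩
      · intro s hs hs' hs1
        have e1 : e s⁻¹ = - e s := by
          rw [he s (hmem s hs), he s⁻¹ (hmem _ hs')]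
          have e2 : (⟨s⁻¹, hmem _ hs'⟩ : Subgroup.closure (T : Set Q)) = (⟨s, hmem s hs⟩)⁻¹ := rfl
          rw [e2, map_inv]
          rfl
        by_cases h0 : e s = 0
        · have h0' : e s⁻¹ = 0 := by rw [e1, h0, neg_zero]
          simp only [h0, h0', if_true]
          exact h1 s (Finset.mem_filter.2 ⟨hs, h0⟩) (Finset.mem_filter.2 ⟨hs', h0'⟩) hs1
        · have h0' : e s⁻¹ ≠ 0 := by
            rw [e1]
            exact neg_ne_zero.2 h0
          rcases lt_or_gt_of_ne h0 with h | h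
          · right
            change (if e s⁻¹ = 0 then ε' s⁻¹ else decide (0 < e s⁻¹)) = true
            rw [if_neg h0', decide_eq_true_eq, e1]
            omega
          · left
            change (if e s = 0 then ε' s else decide (0 < e s)) = true
            rw [if_neg h0, decide_eq_true_eq]
            exact h
      · intro S hS hne h1S hε
        by_cases hall : ∀ s ∈ S, e s = 0
        · apply h2 S _ hne h1S
          · intro s hs
            have := hε s hs
            simp only [hall s hs, if_true] at this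
            exact this
          · intro s hs
            exact Finset.mem_filter.2 ⟨hS hs, hall s hs⟩
        · push Not at hall
          obtain ⟨s1, hs1, hs1e⟩ := hall
          have hnn : ∀ s ∈ S, 0 ≤ e s := by
            intro s hs
            by_cases h0 : e s = 0
            · exact h0.ge
            · have := hε s hs
              simp only [h0, if_false, decide_eq_true_eq] at this
              exact this.le
          refine HSf_of S _ (fun s hs => hmem s (hS hs)) φ ?_ ⟨s1, hs1, ?_⟩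
          · intro s hs
            rw [← he s (hmem s (hS hs))]
            exact hnn s hs
          · rw [← he s1 (hmem s1 (hS hs1))]
            exact lt_of_le_of_ne (hnn s1 hs1) (Ne.symm hs1e)

/-- **The positive cone.** -/
theorem exists_cone
    (hQ : ∀ K : Subgroup Q, K.FG → K ≠ ⊥ → ∃ φ : K →* Multiplicative ℤ, ∃ k, φ k ≠ 1) :
    ∃ P : Set Q, HS P ∧ (1 : Q) ∉ P ∧ (∀ q, q ≠ 1 → q ∈ P ∨ q⁻¹ ∈ P) ∧
      ∀ p ∈ P, ∀ q ∈ P, p * q ∈ P := by
  classical
  let C : Finset Q → Set (Q → Bool) := fun T => {ε |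
    (∀ s ∈ T, s⁻¹ ∈ T → s ≠ 1 → ε s = true ∨ ε s⁻¹ = true) ∧
      ∀ S ⊆ T, S.Nonempty → (1 : Q) ∉ S → (∀ s ∈ S, ε s = true) → HSf S}
  have hne : ∀ T, (C T).Nonempty := fun T => fin_cone hQ _ T rfl
  have hcoord : ∀ (s : Q), IsClopen {ε : Q → Bool | ε s = true} := by
    intro s
    exact (isClopen_discrete {true}).preimage (continuous_apply s)
  have hcl : ∀ T, IsClosed (C T) := by
    intro T
    have e1 : C T = (⋂ s ∈ T, ⋂ (_ : s⁻¹ ∈ T), ⋂ (_ : s ≠ 1),
        ({ε : Q → Bool | ε s = true} ∪ {ε : Q → Bool | ε s⁻¹ = true})) ∩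
        ⋂ S ∈ T.powerset, ⋂ (_ : S.Nonempty), ⋂ (_ : (1 : Q) ∉ S), ⋂ (_ : ¬ HSf S),
          (⋂ s ∈ S, {ε : Q → Bool | ε s = true})ᶜ := by
      ext ε
      simp only [C, Set.mem_ofPred_eq, Set.mem_inter_iff, Set.mem_iInter, Set.mem_union,
        Finset.mem_powerset, Set.mem_compl_iff]
      constructor
      · rintro ⟨h1, h2⟩
        refine ⟨fun s hs hs' h3 => h1 s hs hs' h3, fun S hS hSn hS1 hSf hcon => hSf ?_⟩
        exact h2 S hS hSn hS1 hcon
      · rintro ⟨h1, h2⟩
        refine ⟨fun s hs hs' h3 => h1 s hs hs' h3, fun S hS hSn hS1 hcon => ?_⟩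
        by_contra hSf
        exact h2 S hS hSn hS1 hSf hcon
    rw [e1]
    refine IsClosed.inter ?_ ?_
    · refine isClosed_biInter fun s _ => isClosed_iInter fun _ => isClosed_iInter fun _ => ?_
      exact (hcoord s).1.union (hcoord _).1
    · refine isClosed_biInter fun S _ => isClosed_iInter fun _ => isClosed_iInter fun _ =>
        isClosed_iInter fun _ => ?_
      rw [isClosed_compl_iff]
      exact isOpen_biInter_finset fun s _ => (hcoord s).2
  have hdir : Directed (· ⊇ ·) C := by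
    intro T1 T2
    refine ⟨T1 ∪ T2, ?_, ?_⟩
    · intro ε hε
      exact ⟨fun s hs hs' h3 => hε.1 s (Finset.mem_union_left _ hs) (Finset.mem_union_left _ hs') h3,
        fun S hS => hε.2 S (hS.trans Finset.subset_union_left)⟩
    · intro ε hε
      exact ⟨fun s hs hs' h3 => hε.1 s (Finset.mem_union_right _ hs)
        (Finset.mem_union_right _ hs') h3,
        fun S hS => hε.2 S (hS.trans Finset.subset_union_right)⟩
  obtain ⟨ε, hε⟩ := IsCompact.nonempty_iInter_of_directed_nonempty_isCompact_isClosed C hdir hne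
    (fun T => (hcl T).isCompact) hcl
  rw [Set.mem_iInter] at hε
  have hHS : HS {q | q ≠ 1 ∧ ε q = true} := by
    intro S hSne hS
    exact (hε S).2 S (Finset.Subset.refl S) hSne (fun h => (hS h).1 rfl) (fun s hs => (hS hs).2)
  have htot : ∀ q, q ≠ 1 → q ∈ {q | q ≠ 1 ∧ ε q = true} ∨ q⁻¹ ∈ {q | q ≠ 1 ∧ ε q = true} := by
    intro q hq
    rcases (hε {q, q⁻¹}).1 q (by simp) (by simp) hq with h | h
    · exact Or.inl ⟨hq, h⟩
    · exact Or.inr ⟨inv_ne_one.2 hq, h⟩
  refine ⟨{q | q ≠ 1 ∧ ε q = true}, hHS, fun h => h.1 rfl, htot, ?_⟩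
  intro p hp q hq
  by_contra hcon
  have hgen : ∀ S : Finset Q, (∀ s ∈ S, s ∈ ({q | q ≠ 1 ∧ ε q = true} : Set Q)) → S.Nonempty →
      ∃ φ : Subgroup.closure (S : Set Q) →* Multiplicative ℤ,
      (∀ s (hs : s ∈ S), 0 ≤ (φ ⟨s, Subgroup.subset_closure hs⟩).toAdd) ∧
      ∃ s, ∃ hs : s ∈ S, 0 < (φ ⟨s, Subgroup.subset_closure hs⟩).toAdd :=
    fun S hS hne => hHS S hne hS
  by_cases h1 : p * q = 1
  · obtain ⟨φ, h2, s, hs, h3⟩ := hgen {p, q} (by
      intro s hs
      rw [Finset.mem_insert, Finset.mem_singleton] at hs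
      rcases hs with rfl | rfl
      · exact hp
      · exact hq) ⟨p, by simp⟩
    have hpm : p ∈ ({p, q} : Finset Q) := by simp
    have hqm : q ∈ ({p, q} : Finset Q) := by simp
    have h4 : (φ ⟨p, Subgroup.subset_closure hpm⟩).toAdd
        + (φ ⟨q, Subgroup.subset_closure hqm⟩).toAdd = 0 := by
      rw [← toAdd_mul, ← map_mul]
      have e1 : (⟨p, Subgroup.subset_closure hpm⟩ * ⟨q, Subgroup.subset_closure hqm⟩ :
          Subgroup.closure (({p, q} : Finset Q) : Set Q)) = 1 := Subtype.ext h1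
      rw [e1, map_one]
      rfl
    have h5 := h2 p hpm
    have h6 := h2 q hqm
    rw [Finset.mem_insert, Finset.mem_singleton] at hs
    rcases hs with rfl | rfl
    · omega
    · omega
  · have h0 : (p * q)⁻¹ ∈ ({q | q ≠ 1 ∧ ε q = true} : Set Q) := (htot _ h1).resolve_left hcon
    obtain ⟨φ, h2, s, hs, h3⟩ := hgen {p, q, (p * q)⁻¹} (by
      intro s hs
      rw [Finset.mem_insert, Finset.mem_insert, Finset.mem_singleton] at hs
      rcases hs with rfl | rfl | rfl
      · exact hp
      · exact hq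
      · exact h0) ⟨p, by simp⟩
    have hpm : p ∈ ({p, q, (p * q)⁻¹} : Finset Q) := by simp
    have hqm : q ∈ ({p, q, (p * q)⁻¹} : Finset Q) := by simp
    have hrm : (p * q)⁻¹ ∈ ({p, q, (p * q)⁻¹} : Finset Q) := by simp
    have h4 : (φ ⟨p, Subgroup.subset_closure hpm⟩).toAdd
        + (φ ⟨q, Subgroup.subset_closure hqm⟩).toAdd
        + (φ ⟨(p * q)⁻¹, Subgroup.subset_closure hrm⟩).toAdd = 0 := by
      rw [← toAdd_mul, ← toAdd_mul, ← map_mul, ← map_mul]
      have e1 : (⟨p, Subgroup.subset_closure hpm⟩ * ⟨q, Subgroup.subset_closure hqm⟩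
          * ⟨(p * q)⁻¹, Subgroup.subset_closure hrm⟩ :
          Subgroup.closure (({p, q, (p * q)⁻¹} : Finset Q) : Set Q)) = 1 :=
        Subtype.ext (mul_inv_cancel (p * q))
      rw [e1, map_one]
      rfl
    have h5 := h2 p hpm
    have h6 := h2 q hqm
    have h7 := h2 _ hrm
    rw [Finset.mem_insert, Finset.mem_insert, Finset.mem_singleton] at hs
    rcases hs with rfl | rfl | rfl
    · omega
    · omega
    · omega

end

end Pool.Agent.X190.LQ
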