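import Pool.Agent.X190.TW.Elem

set_option autoImplicit false
set_option linter.unusedSectionVars false

open scoped InnerProductSpace InnerProduct ENNReal Topology
open Filter

/-! Faces with respect to homomorphisms of subquotients. -/

namespace Pool.Agent.X190.LQ

open Pool.Agent.W649.ZL Pool.Agent.X190.TW MvPolynomial

universe u v

section
variable {G : Type u} [Group G]

/-- the face inequality with weights `e` on the support which come from functions `lam`, `mu` -/
theorem kc_face_gen (α β : G →₀ ℂ) (e lam mu : G → ℝ)
    (h : ∀ t ∈ α.support, ∀ x, lam (t⁻¹ * x) = mu x - e t) (m : ℝ)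
    (hm : ∀ t ∈ α.support, m ≤ e t) (hβ0 : ∀ t ∈ α.support, e t = m → β t = α t)
    (hβ1 : ∀ t ∈ α.support, e t ≠ m → β t = 0) (hβ2 : ∀ t, t ∉ α.support → β t = 0) :
    kc α ≤ kc β := by
  classical
  set T := α.support with hT
  set A : T → EE G Unit →L[ℂ] EE G Unit := fun t => Ltr (t : G) with hA
  have hAe : ∀ i, Eqv (A i) := fun i => elem_eqv _ _ _
  have hβT : β.support ⊆ T := by
    intro t ht
    by_contra hcon
    exact (Finsupp.mem_support_iff.1 ht) (hβ2 t hcon)
  have hkα : kc α = kd A (fun t => α t) := by
    unfold kc kd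
    rw [← lin_Ltr_eq α T subset_rfl]
  have hkβ : kc β = kd A (fun t => β t) := by
    unfold kc kd
    rw [← lin_Ltr_eq β T hβT]
  have hone : ∀ z : ℂ, kd A (fun t : T => α t)
      ≤ kd A (fun t : T => Complex.exp (z * ((e t - m : ℝ) : ℂ)) * α t) := by
    intro z
    refine entire_ge A hAe (kd A (fun t : T => α t))
      (fun z t => Complex.exp (z * ((e t - m : ℝ) : ℂ)) * α t) ?_ ?_ z
    · intro i
      exact ((Complex.differentiable_exp.comp (differentiable_id.mul_const _)).mul_const _)
    · intro s
      apply le_of_eq
      symm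
      have hθ : ∀ x : G × Unit, ‖Complex.exp ((s * lam x.1 : ℝ) * Complex.I)‖ = 1 :=
        fun x => Complex.norm_exp_ofReal_mul_I _
      apply vd_phase (fun x : G × Unit => Complex.exp ((s * lam x.1 : ℝ) * Complex.I)) hθ
      intro f
      have key : ∀ x : G,
          lin A (fun t : T => Complex.exp (s * Complex.I * ((e t - m : ℝ) : ℂ)) * α t)
            (ph (fun x : G × Unit => Complex.exp ((s * lam x.1 : ℝ) * Complex.I)) hθ f) (x, ())
          = Complex.exp ((s * (mu x - m) : ℝ) * Complex.I)
            * lin A (fun t : T => α t) f (x, ()) := by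
        intro x
        rw [hA, lin_Ltr_apply, lin_Ltr_apply, Finset.mul_sum]
        refine Finset.sum_congr rfl fun t _ => ?_
        rw [ph_apply]
        simp only
        rw [h t t.2 x]
        have e1 : Complex.exp ((s * (mu x - m) : ℝ) * Complex.I)
            = Complex.exp (s * Complex.I * ((e t - m : ℝ) : ℂ))
              * Complex.exp ((s * (mu x - e t) : ℝ) * Complex.I) := by
          rw [← Complex.exp_add]
          congr 1
          push_cast
          ring
        rw [e1]
        ring
      constructor
      · intro h0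
        ext ⟨x, ⟨⟩⟩
        have h1 := key x
        rw [h0] at h1
        have h2 : Complex.exp ((s * (mu x - m) : ℝ) * Complex.I)
            * lin A (fun t : T => α t) f (x, ()) = 0 := h1.symm
        exact (mul_eq_zero.1 h2).resolve_left (Complex.exp_ne_zero _)
      · intro h0
        ext ⟨x, ⟨⟩⟩
        rw [key, h0]
        change Complex.exp ((s * (mu x - m) : ℝ) * Complex.I) * 0 = 0
        rw [mul_zero]
  rw [hkα, hkβ]
  refine limit_ge A hAe _
    (fun n t => Complex.exp (-(n : ℂ) * ((e t - m : ℝ) : ℂ)) * α t) (fun t => β t) ?_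
    (fun n => hone _)
  intro t
  by_cases hw0 : e t = m
  · rw [hβ0 t t.2 hw0]
    simp only [hw0, sub_self, Complex.ofReal_zero, mul_zero, Complex.exp_zero, one_mul]
    exact tendsto_const_nhds
  · have hpos : 0 < e t - m := sub_pos.2 (lt_of_le_of_ne (hm t t.2) (Ne.symm hw0))
    rw [hβ1 t t.2 hw0]
    set w := e t - m with hwdef
    have h1 : Tendsto (fun n : ℕ => Real.exp (-(n : ℝ) * w)) atTop (𝓝 0) := by
      apply Real.tendsto_exp_atBot.comp
      have h2 : Tendsto (fun n : ℕ => (n : ℝ) * w) atTop atTop :=
        tendsto_natCast_atTop_atTop.atTop_mul_const hpos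
      have h3 := tendsto_neg_atTop_atBot.comp h2
      refine h3.congr fun n => ?_
      simp [neg_mul]
    have h4 : Tendsto (fun n : ℕ => ((Real.exp (-(n : ℝ) * w) : ℝ) : ℂ) * α t) atTop
        (𝓝 (((0 : ℝ) : ℂ) * α t)) :=
      ((Complex.continuous_ofReal.tendsto 0).comp h1).mul_const (α t)
    rw [Complex.ofReal_zero, zero_mul] at h4
    refine h4.congr fun n => ?_
    push_cast
    rfl

/-- a function on `G` which extends a homomorphism on a subgroup by right cosets -/
theorem exists_ext (K : Subgroup G) (φ : K →* Multiplicative ℤ) :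
    ∃ lam : G → ℝ, ∀ (k : K) (x : G), lam ((k : G) * x) = ((φ k).toAdd : ℝ) + lam x := by
  classical
  have hmem : ∀ x : G, x * (Quotient.out (Quotient.mk (QuotientGroup.rightRel K) x))⁻¹ ∈ K := by
    intro x
    have h1 : (QuotientGroup.rightRel K) (Quotient.out (Quotient.mk (QuotientGroup.rightRel K) x)) x :=
      Quotient.mk_out x
    rw [QuotientGroup.rightRel_apply] at h1
    exact h1
  refine ⟨fun x => ((φ ⟨_, hmem x⟩).toAdd : ℝ), ?_⟩
  intro k x
  have h1 : Quotient.mk (QuotientGroup.rightRel K) ((k : G) * x)
      = Quotient.mk (QuotientGroup.rightRel K) x := by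
    apply Quotient.sound
    change (QuotientGroup.rightRel K) _ _
    rw [QuotientGroup.rightRel_apply]
    have : x * ((k : G) * x)⁻¹ = ((k⁻¹ : K) : G) := by
      rw [mul_inv_rev, mul_inv_cancel_left]
      rfl
    rw [this]
    exact (k⁻¹).2
  have h2 : (⟨_, hmem ((k : G) * x)⟩ : K) = k * ⟨_, hmem x⟩ := by
    apply Subtype.ext
    change (k : G) * x * (Quotient.out (Quotient.mk (QuotientGroup.rightRel K) ((k : G) * x)))⁻¹
      = (k : G) * (x * (Quotient.out (Quotient.mk (QuotientGroup.rightRel K) x))⁻¹)
    rw [h1, mul_assoc]
  simp only [h2, map_mul, toAdd_mul]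
  push_cast
  rfl

/-- **Two extreme cosets.** -/
theorem extreme {Q : Type v} [Group Q] (hQ : LI Q) (π : G →* Q) [DecidableEq Q] :
    ∀ (n : ℕ) (α : G →₀ ℂ), (α.support.image π).card = n → α ≠ 0 →
      ∃ q₁ ∈ α.support.image π, ∃ q₂ ∈ α.support.image π, (2 ≤ n → q₁ ≠ q₂) ∧
        kc α ≤ kc (α.filter (fun g => π g = q₁)) ∧ kc α ≤ kc (α.filter (fun g => π g = q₂)) := by
  classical
  intro n
  induction n using Nat.strong_induction_on with
  | _ n ih =>
    intro α hcard hα
    obtain ⟨t0, ht0⟩ := Finsupp.support_nonempty_iff.2 hα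
    by_cases hone : (α.support.image π).card ≤ 1
    · have hq : ∀ g ∈ α.support, π g = π t0 := by
        intro g hg
        exact Finset.card_le_one.1 hone _ (Finset.mem_image_of_mem π hg) _
          (Finset.mem_image_of_mem π ht0)
      have hfil : α.filter (fun g => π g = π t0) = α := by
        rw [Finsupp.filter_eq_self_iff]
        intro g hg
        exact hq g (Finsupp.mem_support_iff.2 hg)
      refine ⟨π t0, Finset.mem_image_of_mem π ht0, π t0, Finset.mem_image_of_mem π ht0, ?_, ?_, ?_⟩
      · intro h2
        omega
      · rw [hfil]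
      · rw [hfil]
    · push Not at hone
      let K : Subgroup Q := Subgroup.closure
        ((α.support.image (fun t => π (t0⁻¹ * t)) : Finset Q) : Set Q)
      have hKs : ∀ t ∈ α.support, π (t0⁻¹ * t) ∈ K := fun t ht =>
        Subgroup.subset_closure (Finset.mem_coe.2
          (Finset.mem_image_of_mem (fun t => π (t0⁻¹ * t)) ht))
      have hKne : K ≠ ⊥ := by
        intro hbot
        apply absurd hone
        push Not
        apply Finset.card_le_one.2
        have : ∀ a ∈ α.support.image π, a = π t0 := by
          intro a ha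
          obtain ⟨t, ht, rfl⟩ := Finset.mem_image.1 ha
          have h1 := hKs t ht
          rw [hbot, Subgroup.mem_bot, map_mul, map_inv] at h1
          exact (inv_mul_eq_one.1 h1).symm
        intro a ha b hb
        rw [this a ha, this b hb]
      obtain ⟨φ, k0, hk0⟩ := hQ K ⟨_, rfl⟩ hKne
      -- pull back to `G`
      let K' : Subgroup G := K.comap π
      let ψ : K' →* Multiplicative ℤ := φ.comp ((π.comp K'.subtype).codRestrict K (fun k => k.2))
      obtain ⟨lam, hlam⟩ := exists_ext K' ψ
      let e : G → ℤ := fun t => if h : π (t0⁻¹ * t) ∈ K then (φ ⟨_, h⟩).toAdd else 0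
      have he : ∀ t (h : π (t0⁻¹ * t) ∈ K), e t = (φ ⟨_, h⟩).toAdd := by
        intro t h
        simp only [e]
        rw [dif_pos h]
      have heπ : ∀ t t', π t = π t' → e t = e t' := by
        intro t t' htt
        have h1 : π (t0⁻¹ * t) = π (t0⁻¹ * t') := by rw [map_mul, map_mul, htt]
        simp only [e, h1]
      have hshift : ∀ t ∈ α.support, ∀ x, lam (t⁻¹ * x) = lam (t0⁻¹ * x) - (e t : ℝ) := by
        intro t ht x
        have h1 := hKs t ht
        let k : K' := ⟨t0⁻¹ * t, h1⟩
        have h2 := hlam k (t⁻¹ * x)
        have h3 : (k : G) * (t⁻¹ * x) = t0⁻¹ * x := by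
          change t0⁻¹ * t * (t⁻¹ * x) = _
          group
        rw [h3] at h2
        have h4 : (ψ k).toAdd = e t := by
          rw [he t h1]
          rfl
        rw [h4] at h2
        linarith
      have he0 : e t0 = 0 := by
        have h1 := hKs t0 ht0
        rw [he t0 h1]
        have : (⟨π (t0⁻¹ * t0), h1⟩ : K) = 1 := by
          apply Subtype.ext
          change π (t0⁻¹ * t0) = 1
          rw [inv_mul_cancel, map_one]
        rw [this, map_one]
        rfl
      obtain ⟨t1, ht1, hmin⟩ := Finset.exists_min_image α.support e ⟨t0, ht0⟩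
      obtain ⟨t2, ht2, hmax⟩ := Finset.exists_max_image α.support e ⟨t0, ht0⟩
      have hlt : e t1 < e t2 := by
        by_contra hcon
        push Not at hcon
        have hall : ∀ t ∈ α.support, e t = 0 := by
          intro t ht
          have h1 := hmin t ht
          have h2 := hmax t ht
          have h3 := hmin t0 ht0
          have h4 := hmax t0 ht0
          omega
        have hker : K ≤ (φ.ker).map K.subtype := by
          rw [Subgroup.closure_le]
          intro x hx
          obtain ⟨t, ht, rfl⟩ := Finset.mem_image.1 (Finset.mem_coe.1 hx)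
          refine ⟨⟨π (t0⁻¹ * t), hKs t ht⟩, ?_, rfl⟩
          have h2 := hall t ht
          rw [he t (hKs t ht)] at h2
          change φ _ = 1
          exact Multiplicative.toAdd.injective h2
        obtain ⟨k1, hk1, hk2⟩ := hker k0.2
        apply hk0
        have : k1 = k0 := Subtype.ext hk2
        rw [← this]
        exact hk1
      -- the two parts
      have hpart : ∀ (m : ℤ) (s s' : G), s ∈ α.support → s' ∈ α.support → e s = m → e s' ≠ m →
          (kc α ≤ kc (α.filter (fun t => e t = m))) →
          ∃ q ∈ α.support.image π, (∃ t, π t = q ∧ e t = m) ∧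
            kc α ≤ kc (α.filter (fun g => π g = q)) := by
        intro m s s' hs hs' hsm hsm' hle
        set β := α.filter (fun t => e t = m) with hβ
        have hβs : ∀ t, t ∈ β.support ↔ t ∈ α.support ∧ e t = m := by
          intro t
          rw [hβ, Finsupp.support_filter, Finset.mem_filter]
        have hβne : β ≠ 0 := by
          intro h0
          have := (hβs s).2 ⟨hs, hsm⟩
          rw [h0] at this
          simp at this
        have hcl : (β.support.image π).card < n := by
          rw [← hcard]
          apply Finset.card_lt_card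
          rw [Finset.ssubset_iff_of_subset]
          · refine ⟨π s', Finset.mem_image_of_mem π hs', ?_⟩
            intro hmem
            obtain ⟨t, ht, hts⟩ := Finset.mem_image.1 hmem
            exact hsm' ((heπ t s' hts).symm.trans ((hβs t).1 ht).2)
          · intro q hq
            obtain ⟨t, ht, rfl⟩ := Finset.mem_image.1 hq
            exact Finset.mem_image_of_mem π ((hβs t).1 ht).1
        obtain ⟨q, hq, _, _, _, hle1, _⟩ := ih _ hcl β rfl hβne
        obtain ⟨t, ht, htq⟩ := Finset.mem_image.1 hq
        have htm := (hβs t).1 ht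
        refine ⟨q, ?_, ⟨t, htq, htm.2⟩, ?_⟩
        · rw [← htq]
          exact Finset.mem_image_of_mem π htm.1
        · refine hle.trans (hle1.trans (le_of_eq ?_))
          congr 1
          rw [hβ]
          ext g
          rw [Finsupp.filter_apply, Finsupp.filter_apply, Finsupp.filter_apply]
          by_cases hg : π g = q
          · rw [if_pos hg, if_pos hg, if_pos ((heπ g t (hg.trans htq.symm)).trans htm.2)]
          · rw [if_neg hg, if_neg hg]
      obtain ⟨q1, hq1, ⟨s1, hs1, hs1'⟩, hle1⟩ := hpart (e t1) t1 t2 ht1 ht2 rfl hlt.ne' (by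
        refine kc_face_gen α _ (fun t => (e t : ℝ)) lam (fun x => lam (t0⁻¹ * x)) hshift (e t1 : ℝ)
          ?_ ?_ ?_ ?_
        · intro t ht
          exact_mod_cast hmin t ht
        · intro t ht het
          exact Finsupp.filter_apply_pos _ _ (by exact_mod_cast het)
        · intro t ht het
          exact Finsupp.filter_apply_neg _ _ (by exact_mod_cast het)
        · intro t ht
          by_contra hcon
          have := Finsupp.mem_support_iff.2 hcon
          rw [Finsupp.support_filter, Finset.mem_filter] at this
          exact ht this.1)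
      obtain ⟨q2, hq2, ⟨s2, hs2, hs2'⟩, hle2⟩ := hpart (e t2) t2 t1 ht2 ht1 rfl hlt.ne (by
        refine kc_face_gen α _ (fun t => -(e t : ℝ)) (fun x => - lam x)
          (fun x => - lam (t0⁻¹ * x)) ?_ (-(e t2 : ℝ)) ?_ ?_ ?_ ?_
        · intro t ht x
          rw [hshift t ht x]
          ring
        · intro t ht
          have : (e t : ℝ) ≤ e t2 := by exact_mod_cast hmax t ht
          exact neg_le_neg this
        · intro t ht het
          have : (e t : ℝ) = e t2 := neg_injective het
          exact Finsupp.filter_apply_pos _ _ (by exact_mod_cast this)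
        · intro t ht het
          have : (e t : ℝ) ≠ e t2 := fun h => het (by rw [h])
          exact Finsupp.filter_apply_neg _ _ (by exact_mod_cast this)
        · intro t ht
          by_contra hcon
          have := Finsupp.mem_support_iff.2 hcon
          rw [Finsupp.support_filter, Finset.mem_filter] at this
          exact ht this.1)
      refine ⟨q1, hq1, q2, hq2, ?_, hle1, hle2⟩
      intro _ hqq
      have h1 : e s1 = e s2 := heπ s1 s2 (by rw [hs1, hs2, hqq])
      rw [hs1', hs2'] at h1
      exact hlt.ne h1

end

end Pool.Agent.X190.LQ
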