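import Pool.Agent.X190.LQ.Face
import Pool.Agent.X190.TW.Rep3

set_option autoImplicit false
set_option linter.unusedSectionVars false

open scoped InnerProductSpace InnerProduct ENNReal Topology
open Filter

/-! Matrices with supports in positive sets. -/

namespace Pool.Agent.X190.LQ

open Pool.Agent.W649.ZL Pool.Agent.X190.TW MvPolynomial

universe u v w z

section
variable {G : Type u} {K : Type v} {L : Type w} [Group G] [Fintype K] [Fintype L]
  [DecidableEq K] [DecidableEq L]

/-- the face inequality with weights from a function on the group -/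
theorem kerDimM_face_gen (A B : K → L → (G →₀ ℂ)) (e lam : G → ℝ)
    (h : ∀ i j, ∀ t ∈ (A i j).support, ∀ x, lam (t * x) = e t + lam x)
    (hm : ∀ i j, ∀ t ∈ (A i j).support, 0 ≤ e t)
    (hB0 : ∀ i j, ∀ t ∈ (A i j).support, e t = 0 → B i j t = A i j t)
    (hB1 : ∀ i j, ∀ t ∈ (A i j).support, e t ≠ 0 → B i j t = 0)
    (hB2 : ∀ i j, ∀ t, t ∉ (A i j).support → B i j t = 0) :
    kerDimM A ≤ kerDimM B := by
  classical
  obtain ⟨T, hT⟩ := exists_supp A
  have hTB : ∀ i j, (B i j).support ⊆ T := by
    intro i j t ht
    apply hT i j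
    by_contra hcon
    exact (Finsupp.mem_support_iff.1 ht) (hB2 i j t hcon)
  -- the one-parameter family
  let X : ℂ → K → L → (G →₀ ℂ) := fun z i j =>
    Finsupp.onFinset (A i j).support (fun t => Complex.exp (z * (e t : ℂ)) * A i j t) (by
      intro g hg
      rw [Finsupp.mem_support_iff]
      intro h0
      exact hg (by rw [h0, mul_zero]))
  have hX : ∀ z i j t, X z i j t = Complex.exp (z * (e t : ℂ)) * A i j t := fun z i j t => rfl
  have hXT : ∀ z i j, (X z i j).support ⊆ T := by
    intro z i j t ht
    apply hT i j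
    rw [Finsupp.mem_support_iff] at ht ⊢
    intro h0
    exact ht (by rw [hX, h0, mul_zero])
  have hone : ∀ z : ℂ, kerDimM A ≤ kerDimM (X z) := by
    intro z
    rw [kerDimM_coefT T (X z) (hXT z)]
    refine entire_ge _ (famR_eqv _ _ _) (kerDimM A) (fun z => coefT T (X z)) ?_ ?_ z
    · intro i
      exact ((Complex.differentiable_exp.comp (differentiable_id.mul_const _)).mul_const _)
    · intro s
      rw [← kerDimM_coefT T (X _) (hXT _)]
      apply le_of_eq
      symm
      obtain ⟨S, hS, hSk, hSa⟩ := exists_opT A T hT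
      obtain ⟨R, hR, hRk, hRa⟩ := exists_opT (X (s * Complex.I)) T (hXT _)
      rw [hSk, hRk]
      have hθ : ∀ x : G × K, ‖Complex.exp ((-s * lam x.1 : ℝ) * Complex.I)‖ = 1 :=
        fun x => Complex.norm_exp_ofReal_mul_I _
      apply vd_phase (fun x : G × K => Complex.exp ((-s * lam x.1 : ℝ) * Complex.I)) hθ
      intro f
      have key : ∀ (x : G) (j : L),
          R (ph (fun x : G × K => Complex.exp ((-s * lam x.1 : ℝ) * Complex.I)) hθ f) (x, j)
          = Complex.exp ((-s * lam x : ℝ) * Complex.I) * S f (x, j) := by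
        intro x j
        rw [hRa, hSa, Finset.mul_sum]
        refine Finset.sum_congr rfl fun k _ => ?_
        rw [Finset.mul_sum]
        refine Finset.sum_congr rfl fun t _ => ?_
        rw [ph_apply, hX]
        simp only
        by_cases hA : A k j t = 0
        · rw [hA]
          ring
        · rw [h k j t (Finsupp.mem_support_iff.2 hA) x]
          have e1 : Complex.exp ((-s * lam x : ℝ) * Complex.I)
              = Complex.exp (s * Complex.I * (e t : ℂ))
                * Complex.exp ((-s * (e t + lam x) : ℝ) * Complex.I) := by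
            rw [← Complex.exp_add]
            congr 1
            push_cast
            ring
          rw [e1]
          ring
      constructor
      · intro h0
        ext ⟨x, j⟩
        have h1 := key x j
        rw [h0] at h1
        have h2 : Complex.exp ((-s * lam x : ℝ) * Complex.I) * S f (x, j) = 0 := h1.symm
        exact (mul_eq_zero.1 h2).resolve_left (Complex.exp_ne_zero _)
      · intro h0
        ext ⟨x, j⟩
        rw [key, h0]
        change Complex.exp ((-s * lam x : ℝ) * Complex.I) * 0 = 0
        rw [mul_zero]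
  refine kerDimM_limit (fun n => X (-(n : ℂ))) B T (fun n => hXT _) hTB ?_ _ (fun n => hone _)
  intro i j t
  simp only [hX]
  by_cases ht : t ∈ (A i j).support
  · by_cases hw0 : e t = 0
    · rw [hB0 i j t ht hw0]
      simp only [hw0, Complex.ofReal_zero, mul_zero, Complex.exp_zero, one_mul]
      exact tendsto_const_nhds
    · have hpos : 0 < e t := lt_of_le_of_ne (hm i j t ht) (Ne.symm hw0)
      rw [hB1 i j t ht hw0]
      set w := e t with hwdef
      have h1 : Tendsto (fun n : ℕ => Real.exp (-(n : ℝ) * w)) atTop (𝓝 0) := by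
        apply Real.tendsto_exp_atBot.comp
        have h2 : Tendsto (fun n : ℕ => (n : ℝ) * w) atTop atTop :=
          tendsto_natCast_atTop_atTop.atTop_mul_const hpos
        have h3 := tendsto_neg_atTop_atBot.comp h2
        refine h3.congr fun n => ?_
        simp [neg_mul]
      have h4 : Tendsto (fun n : ℕ => ((Real.exp (-(n : ℝ) * w) : ℝ) : ℂ) * A i j t) atTop
          (𝓝 (((0 : ℝ) : ℂ) * A i j t)) :=
        ((Complex.continuous_ofReal.tendsto 0).comp h1).mul_const (A i j t)
      rw [Complex.ofReal_zero, zero_mul] at h4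
      refine h4.congr fun n => ?_
      push_cast
      rfl
  · rw [hB2 i j t ht, Finsupp.notMem_support_iff.1 ht]
    simp only [mul_zero]
    exact tendsto_const_nhds

/-- every nonempty finite subset is nonnegative and not zero for some homomorphism of the group
which it generates to the integers -/
def HS {Q : Type z} [Group Q] (P : Set Q) : Prop :=
  ∀ S : Finset Q, S.Nonempty → (S : Set Q) ⊆ P →
    ∃ φ : Subgroup.closure (S : Set Q) →* Multiplicative ℤ,
      (∀ s (hs : s ∈ S), 0 ≤ (φ ⟨s, Subgroup.subset_closure hs⟩).toAdd) ∧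
      ∃ s, ∃ hs : s ∈ S, 0 < (φ ⟨s, Subgroup.subset_closure hs⟩).toAdd

/-- **Positive perturbations.** -/
theorem kerDimM_positive {Q : Type z} [Group Q] [DecidableEq Q] (π : G →* Q) (P : Set Q)
    (hP : HS P) : ∀ (n : ℕ) (A B : K → L → (G →₀ ℂ)),
      (((Finset.univ : Finset (K × L)).biUnion fun p => (A p.1 p.2).support.image π).filter
        (fun q => q ≠ 1)).card = n →
      (∀ i j, ∀ t ∈ (A i j).support, π t ≠ 1 → π t ∈ P) →
      (∀ i j t, π t = 1 → B i j t = A i j t) → (∀ i j t, π t ≠ 1 → B i j t = 0) →
      kerDimM A ≤ kerDimM B := by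
  classical
  intro n
  induction n using Nat.strong_induction_on with
  | _ n ih =>
    intro A B hcard hAP hB0 hB1
    set U := ((Finset.univ : Finset (K × L)).biUnion fun p => (A p.1 p.2).support.image π).filter
        (fun q => q ≠ 1) with hU
    have hmemU : ∀ q, q ∈ U ↔ q ≠ 1 ∧ ∃ i j, ∃ t ∈ (A i j).support, π t = q := by
      intro q
      rw [hU, Finset.mem_filter, Finset.mem_biUnion]
      constructor
      · rintro ⟨⟨p, _, hp⟩, hq⟩
        obtain ⟨t, ht, rfl⟩ := Finset.mem_image.1 hp
        exact ⟨hq, p.1, p.2, t, ht, rfl⟩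
      · rintro ⟨hq, i, j, t, ht, rfl⟩
        exact ⟨⟨(i, j), Finset.mem_univ _, Finset.mem_image_of_mem π ht⟩, hq⟩
    rcases U.eq_empty_or_nonempty with hemp | hne
    · have hAB : A = B := by
        funext i j
        ext t
        by_cases ht : π t = 1
        · exact (hB0 i j t ht).symm
        · rw [hB1 i j t ht]
          by_contra hcon
          have : π t ∈ U := (hmemU _).2 ⟨ht, i, j, t, Finsupp.mem_support_iff.2 hcon, rfl⟩
          rw [hemp] at this
          simp at this
      rw [hAB]
    · have hUP : (U : Set Q) ⊆ P := by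
        intro q hq
        obtain ⟨hq1, i, j, t, ht, rfl⟩ := (hmemU q).1 hq
        exact hAP i j t ht hq1
      have hPU := hP U hne hUP
      obtain ⟨C, hC⟩ : ∃ C, C = Subgroup.closure (U : Set Q) := ⟨_, rfl⟩
      have hUC : ∀ {s : Q}, s ∈ U → s ∈ C := fun hs => hC ▸ Subgroup.subset_closure hs
      have hPC : ∃ φ : C →* Multiplicative ℤ,
          (∀ s (hs : s ∈ U), 0 ≤ (φ ⟨s, hUC hs⟩).toAdd) ∧
          ∃ s, ∃ hs : s ∈ U, 0 < (φ ⟨s, hUC hs⟩).toAdd := by
        subst hC
        exact hPU
      obtain ⟨φ, hφ0, s0, hs0, hφs⟩ := hPC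
      let K' : Subgroup G := C.comap π
      let ψ : K' →* Multiplicative ℤ := φ.comp ((π.comp K'.subtype).codRestrict C (fun k => k.2))
      obtain ⟨lam, hlam⟩ := exists_ext K' ψ
      let e : G → ℤ := fun t => if h : π t ∈ C then (φ ⟨_, h⟩).toAdd else 0
      have he : ∀ t (h : π t ∈ C), e t = (φ ⟨_, h⟩).toAdd := by
        intro t h
        simp only [e]
        rw [dif_pos h]
      have hsC : ∀ i j, ∀ t ∈ (A i j).support, π t ∈ C := by
        intro i j t ht
        by_cases h1 : π t = 1
        · rw [h1]
          exact C.one_mem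
        · exact hUC ((hmemU _).2 ⟨h1, i, j, t, ht, rfl⟩)
      have hnn : ∀ i j, ∀ t ∈ (A i j).support, 0 ≤ e t := by
        intro i j t ht
        rw [he t (hsC i j t ht)]
        by_cases h1 : π t = 1
        · have : (⟨π t, hsC i j t ht⟩ : C) = 1 := Subtype.ext h1
          rw [this, map_one]
          exact le_rfl
        · exact hφ0 _ ((hmemU _).2 ⟨h1, i, j, t, ht, rfl⟩)
      -- the face
      let D : K → L → (G →₀ ℂ) := fun i j => (A i j).filter (fun t => e t = 0)
      have hle1 : kerDimM A ≤ kerDimM D := by
        refine kerDimM_face_gen A D (fun t => (e t : ℝ)) lam ?_ ?_ ?_ ?_ ?_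
        · intro i j t ht x
          have h1 := hlam ⟨t, hsC i j t ht⟩ x
          have h2 : (ψ ⟨t, hsC i j t ht⟩).toAdd = e t := by
            rw [he t (hsC i j t ht)]
            rfl
          rw [h2] at h1
          exact h1
        · intro i j t ht
          exact_mod_cast hnn i j t ht
        · intro i j t ht h1
          exact Finsupp.filter_apply_pos _ _ (by exact_mod_cast h1)
        · intro i j t ht h1
          exact Finsupp.filter_apply_neg _ _ (by exact_mod_cast h1)
        · intro i j t ht
          by_contra hcon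
          have := Finsupp.mem_support_iff.2 hcon
          rw [Finsupp.support_filter, Finset.mem_filter] at this
          exact ht this.1
      refine hle1.trans ?_
      have hDs : ∀ i j t, t ∈ (D i j).support ↔ t ∈ (A i j).support ∧ e t = 0 := by
        intro i j t
        change t ∈ ((A i j).filter (fun t => e t = 0)).support ↔ _
        rw [Finsupp.support_filter, Finset.mem_filter]
      refine ih _ ?_ D B rfl ?_ ?_ ?_
      · rw [← hcard]
        apply Finset.card_lt_card
        rw [Finset.ssubset_iff_of_subset]
        · refine ⟨s0, hs0, ?_⟩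
          intro hmem
          rw [Finset.mem_filter, Finset.mem_biUnion] at hmem
          obtain ⟨⟨p, _, hp⟩, _⟩ := hmem
          obtain ⟨t, ht, hts⟩ := Finset.mem_image.1 hp
          obtain ⟨ht1, ht2⟩ := (hDs _ _ _).1 ht
          rw [he t (hsC _ _ t ht1)] at ht2
          have : (⟨π t, hsC _ _ t ht1⟩ : C) = ⟨s0, hUC hs0⟩ :=
            Subtype.ext hts
          rw [this] at ht2
          exact hφs.ne' ht2
        · intro q hq
          rw [Finset.mem_filter, Finset.mem_biUnion] at hq
          obtain ⟨⟨p, _, hp⟩, hq1⟩ := hq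
          obtain ⟨t, ht, rfl⟩ := Finset.mem_image.1 hp
          exact (hmemU _).2 ⟨hq1, p.1, p.2, t, ((hDs _ _ _).1 ht).1, rfl⟩
      · intro i j t ht h1
        exact hAP i j t ((hDs i j t).1 ht).1 h1
      · intro i j t ht
        rw [hB0 i j t ht]
        symm
        by_cases hA : A i j t = 0
        · change ((A i j).filter (fun t => e t = 0)) t = _
          rw [Finsupp.filter_apply, hA, ite_self]
        · apply Finsupp.filter_apply_pos
          have hs := Finsupp.mem_support_iff.2 hA
          rw [he t (hsC i j t hs)]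
          have : (⟨π t, hsC i j t hs⟩ : C) = 1 := Subtype.ext ht
          rw [this, map_one]
          rfl
      · intro i j t ht
        exact hB1 i j t ht

end

end Pool.Agent.X190.LQ
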